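import Pool.Agent.Run7.h640.GP2.Sort

/-!
# The golden partition conjecture: small posets determine the golden constants of all posets

`Golden lam α`: in the finite poset `α` there are two consecutive comparisons (the second may depend
on the outcome of the first) with `e(P₁) + e(P₂) ≤ lam · e(P)` for all outcomes; the golden partition
conjecture says that `Golden 1 α` holds for every finite poset which is not a chain. There are absolute
constants `C, c > 0` such that

(1) for every finite poset `P` which is not a chain and every `n ≥ 2` there is a poset `Q` with at most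
`n` elements, not a chain, such that for all `lam`, `Golden lam Q` implies
`Golden (lam + C n ^ (-c)) P`;

(2) if the conjecture holds for all posets with at most `n` elements then `Golden (1 + C n ^ (-c)) P`
for every finite poset `P` which is not a chain, and if moreover `C n ^ (-c) ≤ 1/3` then every finite
poset `P` with `e(P) < (φ (1 - C n ^ (-c))) ^ (k + 1)`, `φ` the golden ratio, can be sorted with `k`
comparisons.

Proof. If some element of `P` is incomparable to many elements then `Golden 1 P` holds by the starting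
theorem `ThickPosets`, and the two-element antichain serves as `Q`. Otherwise `P` is a poset on
`{0, …, N - 1}` in which all numbers of distance at least `D` are comparable. Random linear extensions
of such posets forget the far past exponentially fast. If `P` is large then the part between two equal
windows of length `R` can be cut out, again and again; this gives `Q`, and a place `i` of `Q`
corresponds to the place `i + δ(i)` of `P` with a nondecreasing displacement `δ`. Two pairs of `Q`
which are near each other are moved together, two distant pairs are moved separately, their distance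
does not decrease, and distant pairs are almost independent; so all probabilities change by at most
`4 ρ ^ q`, `R = O(q)`, also after the first comparison (which adds a relation to the poset).
-/

set_option autoImplicit false

namespace Pool.Agent.Results.MP_480c30_co.SmallPosetsSuffice

/-- Some incomparable pair `a, b` can be compared first, then a second pair `c, d` chosen by the
outcome `u < v`, so that for all outcomes `w < z` the number of the linear extensions after the first
comparison plus the number after both is at most `lam` times the number of all linear extensions. -/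
def Golden (lam : ℝ) (α : Type) [Fintype α] [PartialOrder α] : Prop :=
  ∃ a b : α, ¬ a ≤ b ∧ ¬ b ≤ a ∧
    ∀ u v : α, ((u = a ∧ v = b) ∨ (u = b ∧ v = a)) →
      ∃ c d : α, c ≠ d ∧
        ∀ w z : α, ((w = c ∧ z = d) ∨ (w = d ∧ z = c)) →
          (({f : α ≃ Fin (Fintype.card α) |
              StrictMono (f : α → Fin (Fintype.card α)) ∧ f u < f v}.ncard : ℕ) : ℝ)
            + (({f : α ≃ Fin (Fintype.card α) |
              StrictMono (f : α → Fin (Fintype.card α)) ∧ f u < f v ∧ f w < f z}.ncard : ℕ) : ℝ)
            ≤ lam * (({f : α ≃ Fin (Fintype.card α) |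
              StrictMono (f : α → Fin (Fintype.card α))}.ncard : ℕ) : ℝ)

/-- `k` comparisons suffice to find an unknown element of the set `F` of bijections: `F` has at most
one element or (if `k > 0`) for some two distinct elements `a, b` both outcomes of the comparison of
`a` and `b` leave a set for which `k - 1` comparisons suffice. -/
def Sortable {α : Type} {N : ℕ} : ℕ → Set (α ≃ Fin N) → Prop
  | 0, F => F.Subsingleton
  | k + 1, F => F.Subsingleton ∨
      ∃ a b : α, a ≠ b ∧ Sortable k {f | f ∈ F ∧ f a < f b} ∧ Sortable k {f | f ∈ F ∧ f b < f a}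

theorem golden_iff (lam : ℝ) (α : Type) [Fintype α] [PartialOrder α] :
    Golden lam α ↔ Run7.h640.GP2.GPv lam α := by
  unfold Golden Run7.h640.GP2.GPv
  rw [Pool.Agent.Y491.GP.LE_ncard]
  exact Iff.rfl

theorem sortable_of {α : Type} {N : ℕ} : ∀ (k : ℕ) (F : Set (α ≃ Fin N)),
    Run7.h640.GP2.Sorts k F → Sortable k F := by
  intro k
  induction k with
  | zero => exact fun F h => h
  | succ k ih =>
    rintro F (h | ⟨a, b, hne, h1, h2⟩)
    · exact Or.inl h
    · exact Or.inr ⟨a, b, hne, ih _ h1, ih _ h2⟩

theorem result :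
    ∃ C c : ℝ, 0 < C ∧ 0 < c ∧
      (∀ (P : Type) [Fintype P] [PartialOrder P], (∃ x y : P, ¬ x ≤ y ∧ ¬ y ≤ x) →
        ∀ n : ℕ, 2 ≤ n → ∃ (Q : Type) (_ : Fintype Q) (_ : PartialOrder Q),
          Fintype.card Q ≤ n ∧ (∃ x y : Q, ¬ x ≤ y ∧ ¬ y ≤ x) ∧
            ∀ lam : ℝ, Golden lam Q → Golden (lam + C * (n : ℝ) ^ (-c)) P) ∧
      ∀ n : ℕ, 2 ≤ n →
        (∀ (Q : Type) [Fintype Q] [PartialOrder Q], Fintype.card Q ≤ n →
          (∃ x y : Q, ¬ x ≤ y ∧ ¬ y ≤ x) → Golden 1 Q) →
        (∀ (P : Type) [Fintype P] [PartialOrder P], (∃ x y : P, ¬ x ≤ y ∧ ¬ y ≤ x) →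
          Golden (1 + C * (n : ℝ) ^ (-c)) P) ∧
        (C * (n : ℝ) ^ (-c) ≤ 1 / 3 →
          ∀ (P : Type) [Fintype P] [PartialOrder P] (k : ℕ),
            (({f : P ≃ Fin (Fintype.card P) |
              StrictMono (f : P → Fin (Fintype.card P))}.ncard : ℕ) : ℝ) <
                ((1 + √5) / 2 * (1 - C * (n : ℝ) ^ (-c))) ^ (k + 1) →
            Sortable k {f : P ≃ Fin (Fintype.card P) |
              StrictMono (f : P → Fin (Fintype.card P))}) := by
  obtain ⟨C, c, hC, hc, h⟩ := Run7.h640.GP2.main
  refine ⟨C, c, hC, hc, ?_, ?_⟩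
  · intro P _ _ hP n hn
    obtain ⟨Q, i1, i2, h1, h2, h3⟩ := h P hP n hn
    refine ⟨Q, i1, i2, h1, h2, fun lam hG => ?_⟩
    rw [golden_iff] at hG ⊢
    exact h3 lam hG
  · intro n hn hQ
    have hn0 : (0 : ℝ) < n := by exact_mod_cast (by omega : 0 < n)
    have hall : ∀ (P : Type) [Fintype P] [PartialOrder P], (∃ x y : P, ¬ x ≤ y ∧ ¬ y ≤ x) →
        Run7.h640.GP2.GPv (1 + C * (n : ℝ) ^ (-c)) P := by
      intro P _ _ hP
      obtain ⟨Q, i1, i2, h1, h2, h3⟩ := h P hP n hn
      exact h3 1 ((golden_iff 1 Q).1 (hQ Q h1 h2))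
    refine ⟨fun P _ _ hP => (golden_iff _ P).2 (hall P hP), ?_⟩
    intro hsmall P _ _ k hk
    obtain ⟨ε, hε⟩ : ∃ ε : ℝ, C * (n : ℝ) ^ (-c) = ε := ⟨_, rfl⟩
    have hε0 : 0 < ε := by rw [← hε]; positivity
    rw [hε] at hall hsmall hk
    have h5a : (2.236 : ℝ) < √5 := Pool.Agent.Y491.GP.sqrt5_lo
    have h5 : √5 * √5 = 5 := Real.mul_self_sqrt (by norm_num)
    apply sortable_of
    refine Run7.h640.GP2.sorts_of_golden (ε := ε) (x := (1 + √5) / 2 * (1 - ε)) ?_ ?_ hall k P ?_
    · nlinarith
    · have e1 : ((1 + √5) / 2) ^ 2 = (1 + √5) / 2 + 1 := by nlinarith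
      obtain ⟨φ, hφ⟩ : ∃ φ : ℝ, (1 + √5) / 2 = φ := ⟨_, rfl⟩
      rw [hφ] at e1 ⊢
      have hφ1 : 1 < φ := by rw [← hφ]; linarith
      have e2 : (1 + ε) * (φ * (1 - ε)) ^ 2 = (1 - ε ^ 2) * (1 - ε) * (φ + 1) := by
        rw [mul_pow, e1]; ring
      rw [e2]
      have e3 : (1 - ε ^ 2) * (1 - ε) * (φ + 1) ≤ 1 * (1 - ε) * (φ + 1) := by
        apply mul_le_mul_of_nonneg_right _ (by linarith)
        apply mul_le_mul_of_nonneg_right _ (by linarith)
        nlinarith
      nlinarith
    · rw [Pool.Agent.Y491.GP.LE_ncard] at hk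
      exact hk

end Pool.Agent.Results.MP_480c30_co.SmallPosetsSuffice
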